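import Pool.Agent.X111.MO.Fin

set_option autoImplicit false

/-!
MP_07318d_nt. Moments of the local moments of zeta on the critical line and next to it, for windows of all lengths.
For `β > 0` real, `q ≥ 1` an integer, `L(σ, H, t) = ∫_{-H}^H |ζ(σ + i (t + h))|^(2β) dh`, the expected order of
`(1/T) ∫_0^T L(1/2 + δ, H, t)^q dt` is `size = max (H δ^(q - 1 - q²β²), H^(q - q(q-1)β²) δ^(-qβ²))`, where the two terms
change roles at `q β² = 1`: many shifts that are close together, or shifts spread over the whole window.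
With `ℓ = C log log T / log T`:

* on the critical line the mean is at least `c size(ℓ, H)` for `ℓ ≤ H ≤ 1`;
* at distance `ℓ ≤ δ ≤ 1/16` from the line it is at least `c size(δ, H)` for `δ ≤ H ≤ 1`, and at most `D size(δ, H)`
  if `q β < 2` and `q β² ≠ 1`;
* both bounds hold for all `q` and `β` (`q β² ≠ 1` in the upper bound) when only the values between `(log T)^(-A)` and
  `(log T)^A` are counted, the excluded set of ordinates having measure at most `T / (log T)^B` for each shift.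
-/

open Filter Topology MeasureTheory

namespace Pool.Agent.Results.MP_07318d_nt.MomentsOfLocalMoments

/-- The absolute value `|ζ(σ + it)|`. -/
noncomputable def absZ (σ t : ℝ) : ℝ := ‖riemannZeta ((σ : ℂ) + (t : ℂ) * Complex.I)‖

/-- The local moment `∫_{-H}^H |ζ(σ + i (t + h))|^(2β) dh`. -/
noncomputable def loc (σ β H t : ℝ) : ℝ := ∫ h in (-H)..H, absZ σ (t + h) ^ (2 * β)

/-- The truncation of `x` to the values between `1 / V` and `V`. -/
noncomputable def cut (V x : ℝ) : ℝ := if V⁻¹ < x ∧ x < V then x else 0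

/-- The truncated local moment. -/
noncomputable def locCut (V σ β H t : ℝ) : ℝ := ∫ h in (-H)..H, cut V (absZ σ (t + h)) ^ (2 * β)

/-- The order `max (H δ^(q - 1 - q²β²)) (H^(q - q(q-1)β²) δ^(-qβ²))`. -/
noncomputable def size (q : ℕ) (β δ H : ℝ) : ℝ :=
  max (H * δ ^ ((q : ℝ) - 1 - q ^ 2 * β ^ 2)) (H ^ ((q : ℝ) - q * (q - 1) * β ^ 2) * δ ^ (-(q * β ^ 2)))

lemma size_eq (n : ℕ) (β δ H : ℝ) : size (n + 1) β δ H = Pool.Agent.X111.MO.Ax n β δ H := by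
  unfold size Pool.Agent.X111.MO.Ax
  push_cast
  congr 3
  · ring
  · ring

theorem result (β : ℝ) (hβ : 0 < β) (q : ℕ) (hq : 1 ≤ q) (B : ℕ) : ∃ (A : ℕ) (c C D : ℝ), 0 < c ∧ 0 < C ∧ 0 < D ∧
    ∀ᶠ T : ℝ in atTop, ∀ ℓ V : ℝ, ℓ = C * Real.log (Real.log T) / Real.log T → V = Real.log T ^ A →
      (∀ H : ℝ, ℓ ≤ H → H ≤ 1 → c * size q β ℓ H * T ≤ ∫ t in (0:ℝ)..T, loc (1 / 2) β H t ^ q) ∧
      ∀ δ : ℝ, ℓ ≤ δ → δ ≤ 1 / 16 →
        (∀ h : ℝ, |h| ≤ 1 →
          (volume (Set.Ioc 0 T \ {t | V⁻¹ < absZ (1 / 2 + δ) (t + h) ∧ absZ (1 / 2 + δ) (t + h) < V})).toReal ≤ T / Real.log T ^ B) ∧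
        ∀ H : ℝ, δ ≤ H → H ≤ 1 →
          c * size q β δ H * T ≤ ∫ t in (0:ℝ)..T, locCut V (1 / 2 + δ) β H t ^ q ∧
          ∫ t in (0:ℝ)..T, locCut V (1 / 2 + δ) β H t ^ q ≤ ∫ t in (0:ℝ)..T, loc (1 / 2 + δ) β H t ^ q ∧
          (q * β ^ 2 ≠ 1 → ∫ t in (0:ℝ)..T, locCut V (1 / 2 + δ) β H t ^ q ≤ D * size q β δ H * T) ∧
          (q * β ^ 2 ≠ 1 → q * β < 2 → ∫ t in (0:ℝ)..T, loc (1 / 2 + δ) β H t ^ q ≤ D * size q β δ H * T) := by
  obtain ⟨n, rfl⟩ : ∃ n : ℕ, q = n + 1 := ⟨q - 1, by omega⟩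
  obtain ⟨A, c, C, D, hc, hC, hD, h⟩ := Pool.Agent.X111.MO.fin hβ n B
  refine ⟨A, c, C, D, hc, hC, hD, ?_⟩
  filter_upwards [h] with T hT ℓ V hℓ hV
  subst hℓ hV
  simp only [size_eq]
  push_cast
  exact hT

end Pool.Agent.Results.MP_07318d_nt.MomentsOfLocalMoments
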