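import Pool.Agent.X117.Rem3

set_option autoImplicit false

/-!
# MP_07318d_nt: moments over sets spread on the scale of the mean spacing of the zeros

Let `0 < k ≤ 2` and `a, η > 0`. For large `T` every measurable set `D` that fills at least the proportion `η` of every
interval of length `a / log T` in `[T, 2T]` satisfies `∫_{D ∩ [T, 2T]} |ζ(1/2 + it)|^(2k) dt ≥ c T (log T)^(k²)`, with
`c > 0` depending on `k, a, η` only. For every `δ > 0` this holds for the `t` at which `ζ(1/2 + it)` lies in the double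
sector of half-angle `arcsin δ` about a line through `0`, uniformly in the line.
-/

namespace Pool.Agent.Results.MP_07318d_nt.MomentsOverSpreadSets

open Filter MeasureTheory Complex

/-- The set `D` fills at least the proportion `η` of every interval of length `h` in `[T, 2T]`. -/
def RelDense (η h T : ℝ) (D : Set ℝ) : Prop :=
  ∀ x : ℝ, T ≤ x → x + h ≤ 2 * T → η * h ≤ volume.real (D ∩ Set.Icc x (x + h))

/-- The integral of `|ζ(1/2 + it)|^(2k)` over `D ∩ [T, 2T]`. -/
noncomputable def moment (k T : ℝ) (D : Set ℝ) : ℝ :=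
  ∫ t in D ∩ Set.Icc T (2 * T), ‖riemannZeta (1 / 2 + t * I)‖ ^ (2 * k)

/-- The `t` for which `ζ(1/2 + it)` is in the double sector of half-angle `arcsin δ` about the line through `0` of
direction `e^{iφ}`. -/
def sector (φ δ : ℝ) : Set ℝ :=
  {t : ℝ | |(riemannZeta (1 / 2 + t * I) * cexp (-(φ * I))).im| ≤ δ * ‖riemannZeta (1 / 2 + t * I)‖}

lemma moment_eq (k T : ℝ) (D : Set ℝ) :
    ∫ t in D ∩ Set.Icc T (2 * T), Pool.Agent.X117.RM.F k t = moment k T D := by
  unfold moment Pool.Agent.X117.RM.F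
  simp_rw [mul_comm I]

theorem result :
    -- (1) evenly spread sets
    (∀ k a η : ℝ, 0 < k → k ≤ 2 → 0 < a → 0 < η → ∃ c : ℝ, 0 < c ∧ ∀ᶠ T : ℝ in atTop, ∀ D : Set ℝ,
      MeasurableSet D → RelDense η (a / Real.log T) T D → c * (T * Real.log T ^ (k ^ 2)) ≤ moment k T D) ∧
    -- (2) the values close to a line through `0`
    ∀ k δ : ℝ, 0 < k → k ≤ 2 → 0 < δ → ∃ c : ℝ, 0 < c ∧ ∀ᶠ T : ℝ in atTop, ∀ φ : ℝ,
      c * (T * Real.log T ^ (k ^ 2)) ≤ moment k T (sector φ δ) := by
  have h1 : ∀ k a η : ℝ, 0 < k → k ≤ 2 → 0 < a → 0 < η → ∃ c : ℝ, 0 < c ∧ ∀ᶠ T : ℝ in atTop, ∀ D : Set ℝ,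
      MeasurableSet D → RelDense η (a / Real.log T) T D → c * (T * Real.log T ^ (k ^ 2)) ≤ moment k T D := by
    intro k a η hk hk2 ha hη
    obtain ⟨c, hc, h⟩ := Pool.Agent.X117.RM.dense_moment hk hk2 ha hη
    refine ⟨c, hc, ?_⟩
    filter_upwards [h] with T hT D hD hDd
    rw [← moment_eq]
    exact hT D hD hDd
  refine ⟨h1, fun k δ hk hk2 hδ => ?_⟩
  have hpi := Real.pi_pos
  set d : ℝ := min δ 1 with hd
  have hd0 : 0 < d := lt_min hδ one_pos
  obtain ⟨c, hc, h⟩ := h1 k (8 * Real.pi) (d / 64) hk hk2 (by positivity) (by positivity)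
  refine ⟨c, hc, ?_⟩
  filter_upwards [h, Pool.Agent.X117.DS.sector_dense2 hd0 (min_le_right _ _)] with T hT h2 φ
  refine (hT (sector φ d) (Pool.Agent.X117.DS.sector_meas φ d) (h2 φ _ le_rfl)).trans ?_
  refine setIntegral_mono_set ?_ (Eventually.of_forall fun t => Real.rpow_nonneg (norm_nonneg _) _) ?_
  · refine IntegrableOn.mono_set ?_ Set.inter_subset_right
    refine Continuous.integrableOn_Icc ?_
    exact Pool.Agent.X117.DS.zeta_line_cont.norm.rpow_const fun _ => Or.inr (by linarith)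
  · refine (Set.inter_subset_inter_left _ ?_).eventuallyLE
    intro t ht
    have ht' : |(riemannZeta (1 / 2 + t * I) * cexp (-(φ * I))).im| ≤ d * ‖riemannZeta (1 / 2 + t * I)‖ := ht
    exact ht'.trans (mul_le_mul_of_nonneg_right (min_le_left _ _) (norm_nonneg _))

end Pool.Agent.Results.MP_07318d_nt.MomentsOverSpreadSets
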