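import Pool.Agent.X107.MU.MU27

/-!
# The normal law of log |zeta| under the moment measures and the values of zeta to the right of the line

Let `δ(T) → 0`, `δ(T) log T → ∞`, `L = log (1/(2δ))` and let `0 < k ≤ 2` be real. For a compact subset `K` of the
strip `1/2 < Re z < 1` and a set `A` of functions let `S_ε` be the set of the real `t` for which `z ↦ ζ(z + it)` is
uniformly on `K` at distance less than `ε` from a member of `A`. There is a monotone function `p_k` of `ε`, with values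
in `[0, 1]`, depending on `k`, `K` and `A` only, such that for all `ε` at which it is continuous, that is for all but countably many,
and all bounded continuous `F`,
`(2δ)^(k²) (1/T) ∫_{[0, T] ∩ S_ε} |ζ(1/2 + δ + it)|^(2k) F((log |ζ(1/2 + δ + it)| - k L) / √(L/2)) dt`
tends to `a(k) p_k(ε)` times the integral of `F` for the standard normal law: under the moment measure of order `2k`
the logarithm of `|ζ|` next to the critical line is normal and independent of the values of `ζ` to the right of the line.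
For `A = {f}`, `p_k(ε)` is positive for all `ε > 0` if and only if `f` is a target of the universality theorem.
-/

set_option autoImplicit false

open Complex Filter Set MeasureTheory Topology

namespace Pool.Agent.Results.MP_07318d_nt.NormalLawAndUniversality

/-- the value `d_k(p^j) = Γ(k + j) / (Γ(k) j!)` of the generalised divisor function at the powers of a prime -/
noncomputable def dp (k : ℝ) (j : ℕ) : ℝ := Real.Gamma (k + j) / (Real.Gamma k * (j.factorial : ℝ))

/-- the arithmetic factor `a(k)` of the moment of order `2 k` -/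
noncomputable def ak (k : ℝ) : ℝ :=
  ∏' p : Nat.Primes, ((1 - 1 / (p : ℝ)) ^ (k ^ 2) * ∑' j : ℕ, dp k j ^ 2 / (p : ℝ) ^ j)

/-- the real `t` for which `z ↦ ζ(z + it)` is uniformly on `K` at distance less than `ε` from a
member of `A` -/
def S (ε : ℝ) (K : Set ℂ) (A : Set (ℂ → ℂ)) : Set ℝ :=
  {t : ℝ | ∃ f ∈ A, ∃ η < ε, ∀ z ∈ K, ‖riemannZeta (z + t * I) - f z‖ ≤ η}

/-- the hull of `K`: the union of `K` and of the bounded components of its complement -/
def hull (K : Set ℂ) : Set ℂ :=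
  K ∪ {z | z ∉ K ∧ Bornology.IsBounded (connectedComponentIn Kᶜ z)}

/-- `g` is continuous on `L`, holomorphic in the interior of `L`, and on each component of the
interior of `L` either free of zeros or identically zero. -/
structure Good (L : Set ℂ) (g : ℂ → ℂ) : Prop where
  cont : ContinuousOn g L
  hol : DifferentiableOn ℂ g (interior L)
  comp : ∀ z ∈ interior L, (∀ w ∈ connectedComponentIn (interior L) z, g w ≠ 0) ∨
    (∀ w ∈ connectedComponentIn (interior L) z, g w = 0)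

/-- `f` extends from `K` to a good function on the hull of `K` -/
def IsTarget (K : Set ℂ) (f : ℂ → ℂ) : Prop := ∃ g : ℂ → ℂ, (∀ z ∈ K, g z = f z) ∧ Good (hull K) g

/-- `L = log (1/(2δ))` -/
noncomputable def L (δ : ℝ) : ℝ := Real.log (1 / (2 * δ))

/-- the normalised moment of order `2 k` over the part in `P` of `[0, T]`, with the factor
`F((log |ζ(1/2 + δ + it)| - k L) / √(L/2))`:
`(2δ)^(k²) (1/T) ∫_{[0, T] ∩ P} |ζ(1/2 + δ + it)|^(2k) F((log |ζ(1/2 + δ + it)| - k L) / √(L/2)) dt` -/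
noncomputable def M (k : ℝ) (δ : ℝ → ℝ) (P : Set ℝ) (F : BoundedContinuousFunction ℝ ℝ) (T : ℝ) : ℝ :=
  (2 * δ T) ^ (k ^ 2) / T * ∫ t in Icc 0 T ∩ P, ‖riemannZeta (1 / 2 + δ T + t * I)‖ ^ (2 * k) *
    F ((Real.log ‖riemannZeta (1 / 2 + δ T + t * I)‖ - k * L (δ T)) / Real.sqrt (L (δ T) / 2))

lemma dp_eq {k : ℝ} (hk : 0 < k) (m : ℕ) : dp k m = Pool.Agent.H306R2.lc k m := by
  unfold dp
  have hG : Real.Gamma k ≠ 0 := (Real.Gamma_pos_of_pos hk).ne'
  induction m with
  | zero =>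
    unfold Pool.Agent.H306R2.lc
    simp [hG]
  | succ m ih =>
    have h1 : Pool.Agent.H306R2.lc k (m + 1) = Pool.Agent.H306R2.lc k m * ((k + m) / ((m : ℝ) + 1)) := by
      unfold Pool.Agent.H306R2.lc
      rw [Finset.prod_range_succ]
    have hkm : k + (m : ℝ) ≠ 0 := by positivity
    have h2 : Real.Gamma (k + ((m + 1 : ℕ) : ℝ)) = (k + m) * Real.Gamma (k + m) := by
      rw [← Real.Gamma_add_one hkm]
      congr 1
      push_cast
      ring
    have hf : (m.factorial : ℝ) ≠ 0 := by positivity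
    rw [h1, ← ih, h2, Nat.factorial_succ]
    push_cast
    field_simp

lemma ak_eq {k : ℝ} (hk : 0 < k) : ak k = Pool.Agent.H306R2.aF k := by
  unfold ak Pool.Agent.H306R2.aF
  refine tprod_congr fun p => ?_
  simp_rw [dp_eq hk, one_div, inv_pow, div_eq_mul_inv]

lemma isTarget_iff (K : Set ℂ) (f : ℂ → ℂ) : IsTarget K f ↔ Pool.Agent.Y834.UT.Tgt K f := by
  constructor
  · rintro ⟨g, h1, h2, h3, h4⟩
    exact ⟨g, h1, h2, h3, h4⟩
  · rintro ⟨g, h1, h2, h3, h4⟩
    exact ⟨g, h1, h2, h3, h4⟩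

lemma isTarget_of_connected {K : Set ℂ} (hK : IsCompact K) (hKc : IsConnected Kᶜ) (f : ℂ → ℂ) :
    IsTarget K f ↔ Good K f := by
  have hh : hull K = K := Pool.Agent.Y834.UT.hull_eq hK hKc
  constructor
  · rintro ⟨g, h1, h2⟩
    rw [hh] at h2
    have h1' : ∀ z ∈ interior K, f z = g z := fun z hz => (h1 z (interior_subset hz)).symm
    refine ⟨h2.cont.congr fun z hz => (h1 z hz).symm, h2.hol.congr h1', fun z hz => ?_⟩
    have hsub : connectedComponentIn (interior K) z ⊆ interior K := connectedComponentIn_subset _ _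
    rcases h2.comp z hz with h | h
    · exact Or.inl fun w hw => by
        rw [h1' w (hsub hw)]
        exact h w hw
    · exact Or.inr fun w hw => by
        rw [h1' w (hsub hw)]
        exact h w hw
  · intro h
    refine ⟨f, fun _ _ => rfl, ?_⟩
    rw [hh]
    exact h

lemma exists_path : ∃ δ : ℝ → ℝ, Tendsto δ atTop (𝓝 0) ∧ Tendsto (fun T : ℝ => δ T * Real.log T) atTop atTop := by
  have h1 : Tendsto (fun T : ℝ => √(Real.log T)) atTop atTop :=
    Real.tendsto_sqrt_atTop.comp Real.tendsto_log_atTop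
  refine ⟨fun T => (√(Real.log T))⁻¹, h1.inv_tendsto_atTop, ?_⟩
  refine h1.congr' ?_
  filter_upwards [eventually_gt_atTop (1 : ℝ)] with T hT
  have hL := Real.log_pos hT
  have h2 : √(Real.log T) ≠ 0 := (Real.sqrt_pos.2 hL).ne'
  field_simp
  rw [Real.sq_sqrt hL.le]

lemma pos_of {δ : ℝ → ℝ} (hδL : Tendsto (fun T : ℝ => δ T * Real.log T) atTop atTop) : ∀ᶠ T in atTop, 0 < δ T := by
  filter_upwards [hδL.eventually_gt_atTop 0, eventually_gt_atTop 1] with T hT hT1
  exact (pos_iff_pos_of_mul_pos hT).mpr (Real.log_pos hT1)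

open Pool.Agent.X107.MU in
/-- the weighted law -/
lemma law_F {Z0 : ℝ → ℝ → ℝ → ℝ → ℝ → ℕ} {δ : ℝ → ℝ} (hδ : Tendsto δ atTop (𝓝 0))
    (hδL : Tendsto (fun T : ℝ => δ T * Real.log T) atTop atTop) {k : ℝ} (hk : 0 < k) (hk2 : k ≤ 2)
    (h : Sys k Z0 (fun T t => ‖riemannZeta (1 / 2 + δ T + (t : ℂ) * I)‖ ^ (2 * k)) (fun T => Icc 0 T)
      (fun T => (2 * δ T) ^ (k ^ 2) / T)) {K : Set ℂ} (A : Set (ℂ → ℂ)) (hK : IsCompact K)
    (hKs : ∀ z ∈ K, 1 / 2 < z.re ∧ z.re < 1) {ε : ℝ} (hε : ContinuousAt (DL k Z0 K A) ε)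
    (F : BoundedContinuousFunction ℝ ℝ) :
    Tendsto (M k δ (S ε K A) F) atTop (𝓝 ((∫ x, F x ∂(ProbabilityTheory.gaussianReal 0 1)) * DL k Z0 K A ε)) := by
  obtain ⟨G, hG⟩ : ∃ G : ℝ → ℝ → ℝ, ∀ T t, G T t =
      F ((Real.log ‖riemannZeta (1 / 2 + δ T + t * I)‖ - k * L (δ T)) / Real.sqrt (L (δ T) / 2)) := ⟨_, fun _ _ => rfl⟩
  obtain ⟨m, hm⟩ : ∃ m : ℝ, m = ∫ x, F x ∂(ProbabilityTheory.gaussianReal 0 1) := ⟨_, rfl⟩
  have hmF : |m| ≤ ‖F‖ := by
    rw [hm, ← Real.norm_eq_abs]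
    have h1 := norm_integral_le_of_norm_le_const (μ := ProbabilityTheory.gaussianReal 0 1) (f := fun x => F x) (C := ‖F‖)
      (Eventually.of_forall fun x => F.norm_coe_le_norm x)
    simpa using h1
  have hzn : ∀ (T t : ℝ), Pool.Agent.W184.zn (1 / 2 + δ T) t = ‖riemannZeta (1 / 2 + δ T + t * I)‖ := by
    intro T t
    unfold Pool.Agent.W184.zn
    congr 2
    push_cast
    ring
  have htw : ∀ (F : BoundedContinuousFunction ℝ ℝ) (a b : ℕ), a ≠ 0 → b ≠ 0 → a.Coprime b →
      Tendsto (fun T => (((2 * δ T) ^ (k ^ 2) / T : ℝ) : ℂ) * ∫ t in Icc 0 T,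
        ((‖riemannZeta (1 / 2 + δ T + (t : ℂ) * I)‖ ^ (2 * k) *
          F ((Real.log ‖riemannZeta (1 / 2 + δ T + t * I)‖ - k * L (δ T)) / Real.sqrt (L (δ T) / 2)) : ℝ) : ℂ) *
          Pool.Agent.X110.NA.tws a b t) atTop
        (𝓝 (((∫ x, F x ∂(ProbabilityTheory.gaussianReal 0 1)) * TwL k a b : ℝ) : ℂ)) := by
    intro F a b ha hb hab
    have h1 := tilt_whole hδ hδL hk hk2 ha hb hab F
    have e1 : Pool.Agent.H306R2.aF k * (Pool.Agent.Y753.NL.Nu k b a * ∫ x, F x ∂(ProbabilityTheory.gaussianReal 0 1)) =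
        (∫ x, F x ∂(ProbabilityTheory.gaussianReal 0 1)) * TwL k a b := by
      rw [← Nu_TwL ha hb hab]
      ring
    rw [e1] at h1
    refine h1.congr fun T => ?_
    congr 1
    refine integral_congr_ae (Eventually.of_forall fun t => ?_)
    show _ = ((‖riemannZeta (1 / 2 + δ T + (t : ℂ) * I)‖ ^ (2 * k) *
          F ((Real.log ‖riemannZeta (1 / 2 + δ T + t * I)‖ - k * L (δ T)) / Real.sqrt (L (δ T) / 2)) : ℝ) : ℂ) *
          Pool.Agent.X110.NA.tws a b t
    beta_reduce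
    rw [tw_tws ha hb, ← hzn]
    rfl
  have h2 := factor_law hk hK hKs A h (G := G) (M := ‖F‖) (m := m) (fun T t => ?_) hmF ?_ ?_ ?_ hε
  · rw [← hm]
    refine h2.congr fun T => ?_
    unfold M
    simp_rw [hG]
    rfl
  · rw [hG, ← Real.norm_eq_abs]
    exact F.norm_coe_le_norm _
  · filter_upwards [hδ.eventually (gt_mem_nhds (show (0:ℝ) < 1 / 2 by norm_num))] with T hT
    have hc : Continuous fun t : ℝ => Pool.Agent.Y753.SHR.za (δ T) 0 t := Pool.Agent.Y753.SHR.za_cont hT 0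
    have e : (fun t : ℝ => Pool.Agent.Y753.SHR.za (δ T) 0 t) = fun t : ℝ => ‖riemannZeta (1 / 2 + δ T + (t : ℂ) * I)‖ := by
      funext t
      unfold Pool.Agent.Y753.SHR.za
      simp
    rw [e] at hc
    have e2 : G T = fun t : ℝ => F ((Real.log ‖riemannZeta (1 / 2 + δ T + (t : ℂ) * I)‖ - k * L (δ T)) / Real.sqrt (L (δ T) / 2)) :=
      funext (hG T)
    rw [e2]
    refine (F.continuous.measurable.comp ?_).aestronglyMeasurable
    exact ((Real.measurable_log.comp hc.measurable).sub_const _).div_const _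
  · intro a b ha hb hab
    have h3 := htw (BoundedContinuousFunction.const ℝ 1) a b ha hb hab
    simpa using h3
  · intro a b ha hb hab
    rw [hm]
    refine (htw F a b ha hb hab).congr fun T => ?_
    simp_rw [hG]

/-- **The normal law of `log |ζ|` under the moment measures and the values of `ζ` to the right of the line.** -/
theorem result :
    ∃ p : ℝ → Set ℂ → Set (ℂ → ℂ) → ℝ → ℝ,
      -- the weighted moments over the sets of ordinates described by the values right of the line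
      (∀ (δ : ℝ → ℝ), Tendsto δ atTop (𝓝 0) → Tendsto (fun T : ℝ => δ T * Real.log T) atTop atTop →
        ∀ k : ℝ, 0 < k → k ≤ 2 → ∀ (K : Set ℂ) (A : Set (ℂ → ℂ)), IsCompact K → (∀ z ∈ K, 1 / 2 < z.re ∧ z.re < 1) →
          ∀ ε : ℝ, ContinuousAt (p k K A) ε → ∀ F : BoundedContinuousFunction ℝ ℝ,
            Tendsto (M k δ (S ε K A) F) atTop
              (𝓝 (ak k * p k K A ε * ∫ x, F x ∂(ProbabilityTheory.gaussianReal 0 1)))) ∧
      -- the limit functions
      (∀ k : ℝ, 0 < k → 0 < ak k ∧ ∀ (K : Set ℂ) (A : Set (ℂ → ℂ)), Monotone (p k K A) ∧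
        {ε | ¬ ContinuousAt (p k K A) ε}.Countable ∧ ∀ ε : ℝ, 0 ≤ p k K A ε ∧ p k K A ε ≤ 1) ∧
      -- universality
      (∀ k : ℝ, 0 < k → ∀ (K : Set ℂ) (f : ℂ → ℂ), IsCompact K → (∀ z ∈ K, 1 / 2 < z.re ∧ z.re < 1) →
        (IsTarget K f ↔ ∀ ε : ℝ, 0 < ε → 0 < p k K {f} ε)) ∧
      -- if the complement of `K` is connected, the targets are the good functions on `K`
      (∀ (K : Set ℂ) (f : ℂ → ℂ), IsCompact K → IsConnected Kᶜ → (IsTarget K f ↔ Good K f)) := by
  obtain ⟨Z0, hZ0⟩ := Pool.Agent.X107.MU.sys_path Pool.Agent.Y901.SHR.done Pool.Agent.Y753.SHR.star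
  have haF : ∀ k : ℝ, 0 < k → 0 < Pool.Agent.H306R2.aF k := fun k hk => Pool.Agent.H306R2.aF_pos hk
  have hcat : ∀ k : ℝ, 0 < k → ∀ (K : Set ℂ) (A : Set (ℂ → ℂ)) (ε : ℝ),
      ContinuousAt (fun ε => Pool.Agent.X107.MU.DL k (Z0 k) K A ε / Pool.Agent.H306R2.aF k) ε →
      ContinuousAt (Pool.Agent.X107.MU.DL k (Z0 k) K A) ε := by
    intro k hk K A ε h
    have h1 := h.const_mul (Pool.Agent.H306R2.aF k)
    refine h1.congr (Eventually.of_forall fun x => ?_)
    beta_reduce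
    rw [mul_div_cancel₀ _ (haF k hk).ne']
  have hcase : ∀ k : ℝ, ∃ c : ℝ, 0 ≤ c ∧ (k ≤ 2 ∨ 4 + 4 * c ≤ 2 * k) := by
    intro k
    by_cases h : k ≤ 2
    · exact ⟨0, le_rfl, Or.inl h⟩
    · exact ⟨0, le_rfl, Or.inr (by linarith)⟩
  refine ⟨fun k K A ε => Pool.Agent.X107.MU.DL k (Z0 k) K A ε / Pool.Agent.H306R2.aF k, ?_, ?_, ?_, ?_⟩
  · intro δ hδ hδL k hk hk2 K A hK hKs ε hε F
    obtain ⟨E, -, -, hsys⟩ := hZ0 δ hδ hδL 0 le_rfl {k} (countable_singleton k) (fun r hr => by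
      rw [mem_singleton_iff] at hr
      rw [hr]
      exact hk)
    have h1 := law_F hδ hδL hk hk2 ((hsys k (mem_singleton k)).2 hk2) A hK hKs (hcat k hk K A ε hε) F
    have e1 : ak k * (Pool.Agent.X107.MU.DL k (Z0 k) K A ε / Pool.Agent.H306R2.aF k) *
        ∫ x, F x ∂(ProbabilityTheory.gaussianReal 0 1) =
        (∫ x, F x ∂(ProbabilityTheory.gaussianReal 0 1)) * Pool.Agent.X107.MU.DL k (Z0 k) K A ε := by
      rw [ak_eq hk, mul_div_cancel₀ _ (haF k hk).ne', mul_comm]
    simp only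
    rw [e1]
    exact h1
  · intro k hk
    refine ⟨by rw [ak_eq hk]; exact haF k hk, fun K A => ?_⟩
    have hmono : Monotone fun ε => Pool.Agent.X107.MU.DL k (Z0 k) K A ε / Pool.Agent.H306R2.aF k := fun x y hxy =>
      div_le_div_of_nonneg_right (Pool.Agent.X107.MU.DL_mono hk (Z0 k) K A hxy) (haF k hk).le
    refine ⟨hmono, hmono.countable_not_continuousAt, fun ε => ⟨div_nonneg
      (Pool.Agent.X107.MU.DL_nonneg hk (Z0 k) K A ε) (haF k hk).le, ?_⟩⟩
    rw [div_le_one (haF k hk), ← Pool.Agent.X107.MU.L1_eq]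
    exact Pool.Agent.X107.MU.DL_le hk (Z0 k) K A ε
  · intro k hk K f hK hKs
    rw [isTarget_iff]
    constructor
    · intro h ε hε
      exact div_pos (Pool.Agent.X107.MU.DL_pos hk (Z0 k) hK hKs h hε) (haF k hk)
    · intro h
      obtain ⟨δ, hδ, hδL⟩ := exists_path
      obtain ⟨c, hc, hck⟩ := hcase k
      obtain ⟨E, hE, hvol, hsys⟩ := hZ0 δ hδ hδL c hc {k} (countable_singleton k) (fun r hr => by
        rw [mem_singleton_iff] at hr
        rw [hr]
        exact hk)
      have hs := (hsys k (mem_singleton k)).1 hck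
      refine Pool.Agent.X107.MU.tgt_of_DL hk (Z0 k) hK hKs hs fun ε hε => ?_
      have h1 := h ε hε
      rwa [div_pos_iff_of_pos_right (haF k hk)] at h1
  · exact fun K f hK hKc => isTarget_of_connected hK hKc f

end Pool.Agent.Results.MP_07318d_nt.NormalLawAndUniversality
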