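import Pool.Agent.X107.MU.MU43

/-!
# The second moment on the critical line over the sets of Voronin's universality theorem

For a compact subset `K` of the strip `1/2 < Re z < 1` and a set `A` of functions let `S_ε` be the set of the real
`t` for which `z ↦ ζ(z + it)` is uniformly on `K` at distance less than `ε` from a member of `A`. There is a function
`p` of `ε` (depending on `K` and `A`), monotone and with values in `[0, 1]`, such that for all `ε` at which it is
continuous, that is for all but countably many, the second moment ON the critical line satisfies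
`∫_{[0, T] ∩ S_ε} |ζ(1/2 + it)|² dt ~ p(ε) T log T`; the same holds in short windows about `T` of length about
`T / log T` (with Gamma densities as weights), and `p` is also the limit of the normalised second moments over `S_ε`
to the right of the line, `2δ (1/T) ∫_{[0, T] ∩ S_ε} |ζ(1/2 + δ + it)|² dt`, for `δ → 0`, `δ log T → ∞`.
For `A = {f}`, `p(ε)` is positive for all `ε > 0` if and only if `f` is a target of the universality theorem.
-/

set_option autoImplicit false

open Complex Filter Set MeasureTheory Topology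

namespace Pool.Agent.Results.MP_07318d_nt.SecondMomentOnTheLine

/-- the real `t` for which `z ↦ ζ(z + it)` is uniformly on `K` at distance less than `ε` from a
member of `A` -/
def S (ε : ℝ) (K : Set ℂ) (A : Set (ℂ → ℂ)) : Set ℝ :=
  {t : ℝ | ∃ f ∈ A, ∃ η < ε, ∀ z ∈ K, ‖riemannZeta (z + t * I) - f z‖ ≤ η}

/-- the hull of `K`: the union of `K` and of the bounded components of its complement -/
def hull (K : Set ℂ) : Set ℂ :=
  K ∪ {z | z ∉ K ∧ Bornology.IsBounded (connectedComponentIn Kᶜ z)}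

/-- `g` is continuous on `L`, holomorphic in the interior of `L`, and on each component of the
interior of `L` either free of zeros or identically zero. -/
structure Good (L : Set ℂ) (g : ℂ → ℂ) : Prop where
  cont : ContinuousOn g L
  hol : DifferentiableOn ℂ g (interior L)
  comp : ∀ z ∈ interior L, (∀ w ∈ connectedComponentIn (interior L) z, g w ≠ 0) ∨
    (∀ w ∈ connectedComponentIn (interior L) z, g w = 0)

/-- `f` extends from `K` to a good function on the hull of `K` -/
def IsTarget (K : Set ℂ) (f : ℂ → ℂ) : Prop := ∃ g : ℂ → ℂ, (∀ z ∈ K, g z = f z) ∧ Good (hull K) g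

/-- the normalised second moment on the critical line over `[0, T] ∩ P` -/
noncomputable def M0 (P : Set ℝ) (T : ℝ) : ℝ :=
  1 / (T * Real.log T) * ∫ t in Icc 0 T ∩ P, ‖riemannZeta (1 / 2 + t * I)‖ ^ 2

/-- the density of the Gamma distribution of mean `(k + 1) / d` and variance `(k + 1) / d²` -/
noncomputable def gam (k : ℕ) (d t : ℝ) : ℝ := d ^ (k + 1) * t ^ k * Real.exp (-(d * t)) / (k.factorial : ℝ)

/-- the admissible shapes of the windows -/
def Shape (κ : ℝ → ℕ) : Prop := ∀ᶠ T : ℝ in atTop, Real.log T ^ 2 ≤ κ T ∧ (κ T : ℝ) ≤ 4 * Real.log T ^ 2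

/-- the normalised second moment on the critical line over the part in `P` of the window about `T`: the weight is the
Gamma density with parameters `κ(T)` and `κ(T) / T` -/
noncomputable def W (κ : ℝ → ℕ) (P : Set ℝ) (T : ℝ) : ℝ :=
  1 / Real.log T * ∫ t in Ioi 0 ∩ P, gam (κ T) (κ T / T) t * ‖riemannZeta (1 / 2 + t * I)‖ ^ 2

/-- the normalised second moment to the right of the line over `[0, T] ∩ P` -/
noncomputable def M (δ : ℝ → ℝ) (P : Set ℝ) (T : ℝ) : ℝ :=
  2 * δ T / T * ∫ t in Icc 0 T ∩ P, ‖riemannZeta (1 / 2 + δ T + t * I)‖ ^ 2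

lemma isTarget_iff (K : Set ℂ) (f : ℂ → ℂ) : IsTarget K f ↔ Pool.Agent.Y834.UT.Tgt K f := by
  constructor
  · rintro ⟨g, h1, h2, h3, h4⟩
    exact ⟨g, h1, h2, h3, h4⟩
  · rintro ⟨g, h1, h2, h3, h4⟩
    exact ⟨g, h1, h2, h3, h4⟩

lemma isTarget_of_connected {K : Set ℂ} (hK : IsCompact K) (hKc : IsConnected Kᶜ) (f : ℂ → ℂ) :
    IsTarget K f ↔ Good K f := by
  have hh : hull K = K := Pool.Agent.Y834.UT.hull_eq hK hKc
  constructor
  · rintro ⟨g, h1, h2⟩
    rw [hh] at h2
    have h1' : ∀ z ∈ interior K, f z = g z := fun z hz => (h1 z (interior_subset hz)).symm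
    refine ⟨h2.cont.congr fun z hz => (h1 z hz).symm, h2.hol.congr h1', fun z hz => ?_⟩
    have hsub : connectedComponentIn (interior K) z ⊆ interior K := connectedComponentIn_subset _ _
    rcases h2.comp z hz with h | h
    · exact Or.inl fun w hw => by
        rw [h1' w (hsub hw)]
        exact h w hw
    · exact Or.inr fun w hw => by
        rw [h1' w (hsub hw)]
        exact h w hw
  · intro h
    refine ⟨f, fun _ _ => rfl, ?_⟩
    rw [hh]
    exact h

lemma M0_eq (P : Set ℝ) (T : ℝ) : M0 P T = 1 / (T * Real.log T) * ∫ t in Icc 0 T ∩ P, Pool.Agent.X107.MU.Zq t := rfl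

lemma M_eq (δ : ℝ → ℝ) (P : Set ℝ) (T : ℝ) : M δ P T = (2 * δ T) ^ ((1 : ℝ) ^ 2) / T *
    ∫ t in Icc 0 T ∩ P, ‖riemannZeta (1 / 2 + δ T + (t : ℂ) * I)‖ ^ (2 * (1 : ℝ)) := by
  unfold M
  rw [one_pow, Real.rpow_one]
  simp_rw [mul_one, Real.rpow_two]

lemma W_eq {κ : ℝ → ℕ} {P : Set ℝ} {T : ℝ} (hT : 0 < T) : W κ P T =
    1 / Real.log T * ∫ t in Ioi 0 ∩ P, |Pool.Agent.W184.NZ.wz (κ T) T t| := by
  unfold W
  congr 1
  refine integral_congr_ae (ae_restrict_of_ae_restrict_of_subset inter_subset_left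
    ((ae_restrict_iff' measurableSet_Ioi).2 (Eventually.of_forall fun t ht => ?_)))
  have h1 := Pool.Agent.W184.NZ.wz_nonneg (κ T) hT (le_of_lt ht)
  beta_reduce
  rw [abs_of_nonneg h1]
  rfl

/-- **The second moment on the critical line over the sets of the universality theorem.** -/
theorem result :
    ∃ p : Set ℂ → Set (ℂ → ℂ) → ℝ → ℝ,
      -- the asymptotic formulas
      (∀ (K : Set ℂ) (A : Set (ℂ → ℂ)), IsCompact K → (∀ z ∈ K, 1 / 2 < z.re ∧ z.re < 1) →
        ∀ ε : ℝ, ContinuousAt (p K A) ε →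
          Tendsto (M0 (S ε K A)) atTop (𝓝 (p K A ε)) ∧
          (∀ κ : ℝ → ℕ, Shape κ → Tendsto (W κ (S ε K A)) atTop (𝓝 (p K A ε))) ∧
          (∀ δ : ℝ → ℝ, Tendsto δ atTop (𝓝 0) → Tendsto (fun T : ℝ => δ T * Real.log T) atTop atTop →
            Tendsto (M δ (S ε K A)) atTop (𝓝 (p K A ε)))) ∧
      -- the limit function
      (∀ (K : Set ℂ) (A : Set (ℂ → ℂ)), Monotone (p K A) ∧
        {ε | ¬ ContinuousAt (p K A) ε}.Countable ∧ ∀ ε : ℝ, 0 ≤ p K A ε ∧ p K A ε ≤ 1) ∧
      -- universality: the moments over the sets which belong to a target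
      (∀ (K : Set ℂ) (f : ℂ → ℂ), IsCompact K → (∀ z ∈ K, 1 / 2 < z.re ∧ z.re < 1) →
        (IsTarget K f ↔ ∀ ε : ℝ, 0 < ε → 0 < p K {f} ε)) ∧
      -- lower bounds for all `ε`
      (∀ (K : Set ℂ) (A : Set (ℂ → ℂ)), IsCompact K → (∀ z ∈ K, 1 / 2 < z.re ∧ z.re < 1) →
        ∀ ε : ℝ, ∀ m < p K A ε, (∀ᶠ T in atTop, m < M0 (S ε K A) T) ∧
          ∀ κ : ℝ → ℕ, Shape κ → ∀ᶠ T in atTop, m < W κ (S ε K A) T) ∧
      -- if the complement of `K` is connected, the targets are the good functions on `K`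
      (∀ (K : Set ℂ) (f : ℂ → ℂ), IsCompact K → IsConnected Kᶜ → (IsTarget K f ↔ Good K f)) := by
  obtain ⟨Z0, h0, hw, hd⟩ := Pool.Agent.X107.MU.sys_all
  refine ⟨Pool.Agent.X107.MU.DL 1 Z0, ?_, ?_, ?_, ?_, ?_⟩
  · intro K A hK hKs ε hε
    refine ⟨?_, fun κ hκ => ?_, fun δ hδ hδL => ?_⟩
    · exact Pool.Agent.X107.MU.DL_law one_pos Z0 A hK hKs hε h0
    · refine (Pool.Agent.X107.MU.DL_law one_pos Z0 A hK hKs hε (hw κ hκ)).congr' ?_
      filter_upwards [eventually_gt_atTop (0 : ℝ)] with T hT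
      exact (W_eq hT).symm
    · refine (Pool.Agent.X107.MU.DL_law one_pos Z0 A hK hKs hε (hd δ hδ hδL)).congr fun T => ?_
      exact (M_eq δ _ T).symm
  · intro K A
    have hmono := Pool.Agent.X107.MU.DL_mono one_pos Z0 K A
    refine ⟨hmono, hmono.countable_not_continuousAt, fun ε => ⟨Pool.Agent.X107.MU.DL_nonneg one_pos Z0 K A ε, ?_⟩⟩
    have h1 := Pool.Agent.X107.MU.DL_le one_pos Z0 K A ε
    rwa [Pool.Agent.X107.MU.L1_eq, Pool.Agent.X107.MU.aF_one] at h1
  · intro K f hK hKs
    rw [isTarget_iff]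
    constructor
    · intro h ε hε
      exact Pool.Agent.X107.MU.DL_pos one_pos Z0 hK hKs h hε
    · exact fun h => Pool.Agent.X107.MU.tgt_of_DL one_pos Z0 hK hKs h0 h
  · intro K A hK hKs ε m hm
    obtain ⟨m', hm', hmm⟩ := exists_lt_of_lt_csSup ⟨0, Pool.Agent.X107.MU.LS_zero one_pos Z0 K A ε⟩ hm
    refine ⟨?_, fun κ hκ => ?_⟩
    · filter_upwards [hm'.2 _ _ _ h0] with T h1
      exact hmm.trans_le h1
    · filter_upwards [hm'.2 _ _ _ (hw κ hκ), eventually_gt_atTop (0 : ℝ)] with T h1 hT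
      rw [W_eq hT]
      exact hmm.trans_le h1
  · exact fun K f hK hKc => isTarget_of_connected hK hKc f

end Pool.Agent.Results.MP_07318d_nt.SecondMomentOnTheLine
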